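import Mathlib
import Pool.Agent.Q9.MZ.D

/-!
# Maxima of the derivatives of the zeta function against the maxima of the zeta function

Let `M_ℓ(σ, T)` be the maximum of `|ζ^(ℓ)(σ + it)|` over `T ≤ t ≤ 2T`. For every `ℓ` and every `σ > 0`,

`(log T)^(-ℓ) M_0(σ, T) ≪ M_ℓ(σ, T) ≪ (log T)^(2ℓ) M_0(σ, T)`,

which answers Q1 (yes, with `a = -ℓ` and `A = 2ℓ`).

Upper bound: with `f(z) = ζ(s₀ ± iκz²)`, which is at most `M_0` on the diameter `[-1, 1]` and at most `O(T)`
in a disc, the harmonic function `x² - y² + 2y` (at least `3/4` on the three far sides of the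
rectangle `|x| ≤ 1, 0 ≤ y ≤ 1/2`, at least `0` on the near one and `O(|z|)` at `0`) shows that `ζ` is `O(M_0)` in the
disc with the radius `κ / (2 log T)²` about each point of the segment, also at its ends.

Lower bound: by the maximum principle on the rectangle `[σ, R] × [t - log T, t + log T]` with the weight `exp((s - s₀)²)`,
`ζ^(ℓ)` is `O(M_ℓ + 1)` to the right of the segment, if `t` has distance `≥ log T` from the end points; `M_ℓ` is
bounded below, again by the maximum principle, because `ζ^(ℓ)` is bounded below on a line `Re s = R`;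
integration from the line `Re s = R` gives `ζ = O(M_ℓ)`, without any loss. Near the end points the bound follows
from finite differences of order `ℓ` and step `log T`.
-/

set_option autoImplicit false

namespace Pool.Agent.Results.MP_9a1873_nt.DerivativeMaxima

/-- `M ℓ σ T` is the maximum of `|ζ^(ℓ)(σ + it)|` over `T ≤ t ≤ 2T`. -/
noncomputable def M (ℓ : ℕ) (σ T : ℝ) : ℝ :=
  sSup ((fun t : ℝ => ‖iteratedDeriv ℓ riemannZeta (σ + t * Complex.I)‖) '' Set.Icc T (2 * T))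

/-- (1) The two-sided bound of Q1, with `a = -ℓ` and `A = 2ℓ`.
(2) A lower bound for `M_ℓ` without any loss in terms of the values of `ζ` at distance
at least `log T` from the end points. -/
theorem result (ℓ : ℕ) (σ : ℝ) (hσ : 0 < σ) :
    (∃ K T₀ : ℝ, 0 < K ∧ 1 < T₀ ∧ ∀ T : ℝ, T₀ ≤ T →
      Real.log T ^ (-(ℓ : ℝ)) * M 0 σ T ≤ K * M ℓ σ T ∧
      M ℓ σ T ≤ K * (Real.log T ^ (2 * (ℓ : ℝ)) * M 0 σ T)) ∧
    (∃ K T₀ : ℝ, 0 < K ∧ ∀ T : ℝ, T₀ ≤ T → ∀ t : ℝ, T + Real.log T ≤ t → t ≤ 2 * T - Real.log T →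
      ‖riemannZeta (σ + t * Complex.I)‖ ≤ K * M ℓ σ T) := by
  constructor
  · obtain ⟨K₁, T₁, hK₁, h₁⟩ := Pool.Agent.Q9.MZ.lower hσ ℓ
    obtain ⟨K₂, T₂, hK₂, h₂⟩ := Pool.Agent.Q9.MZ.upper hσ ℓ
    refine ⟨max K₁ K₂, max (max T₁ T₂) (Real.exp 1), lt_max_of_lt_left hK₁,
      lt_max_of_lt_right (by simp), ?_⟩
    intro T hT
    have hT1 : T₁ ≤ T := (le_max_left _ _).trans ((le_max_left _ _).trans hT)
    have hT2 : T₂ ≤ T := (le_max_right _ _).trans ((le_max_left _ _).trans hT)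
    have hTe : Real.exp 1 ≤ T := (le_max_right _ _).trans hT
    have hT0 : 0 < T := (Real.exp_pos 1).trans_le hTe
    have hT3 : 1 ≤ T := (Real.one_le_exp zero_le_one).trans hTe
    have hlog : 1 ≤ Real.log T := by rwa [Real.le_log_iff_exp_le hT0]
    have hl0 : 0 < Real.log T := by linarith
    have hM0 : 0 ≤ M 0 σ T := Pool.Agent.Q9.MZ.Mx_nonneg hT3
    have hMl : 0 ≤ M ℓ σ T := Pool.Agent.Q9.MZ.Mx_nonneg hT3
    have e1 : M 0 σ T ≤ K₁ * Real.log T ^ ℓ * M ℓ σ T := h₁ T hT1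
    have e2 : M ℓ σ T ≤ K₂ * Real.log T ^ (2 * ℓ) * M 0 σ T := h₂ T hT2
    have hp : 0 < Real.log T ^ ℓ := by positivity
    constructor
    · rw [Real.rpow_neg hl0.le, Real.rpow_natCast]
      calc (Real.log T ^ ℓ)⁻¹ * M 0 σ T
          ≤ (Real.log T ^ ℓ)⁻¹ * (K₁ * Real.log T ^ ℓ * M ℓ σ T) :=
            mul_le_mul_of_nonneg_left e1 (by positivity)
        _ = K₁ * M ℓ σ T := by field_simp
        _ ≤ max K₁ K₂ * M ℓ σ T := mul_le_mul_of_nonneg_right (le_max_left _ _) hMl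
    · have h3 : Real.log T ^ (2 * (ℓ : ℝ)) = Real.log T ^ (2 * ℓ) := by
        rw [← Real.rpow_natCast]; push_cast; rfl
      rw [h3]
      calc M ℓ σ T ≤ K₂ * (Real.log T ^ (2 * ℓ) * M 0 σ T) := by rw [← mul_assoc]; exact e2
        _ ≤ max K₁ K₂ * (Real.log T ^ (2 * ℓ) * M 0 σ T) :=
            mul_le_mul_of_nonneg_right (le_max_right _ _) (by positivity)
  · obtain ⟨K, T₀, hK, h⟩ := Pool.Agent.Q9.MZ.lower_inside hσ ℓ
    refine ⟨K + 1, max T₀ 1, by linarith, ?_⟩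
    intro T hT t ht1 ht2
    have hMl : 0 ≤ M ℓ σ T := Pool.Agent.Q9.MZ.Mx_nonneg ((le_max_right _ _).trans hT)
    have h1 := h T ((le_max_left _ _).trans hT) t ⟨ht1, ht2⟩
    calc _ ≤ K * M ℓ σ T := h1
      _ ≤ (K + 1) * M ℓ σ T := by linarith

end Pool.Agent.Results.MP_9a1873_nt.DerivativeMaxima
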